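import Mathlib

/-!
# Descent chains give curves

`exists_curve_of_descent`: in a proper metric space let `M` be closed and `y` a point such that from
every point `x ≠ y` of `M` in the closed ball `B(y,r)` there are arbitrarily small steps inside `M`
along which the distance to `y` decreases at rate `c`.  Then every `x ∈ M` in that ball is joined
to `y` inside `M` by a `1/c`-Lipschitz curve parametrised by `[0, dist x y]`.
-/

set_option autoImplicit false

namespace Pool.Agent.Lib.MP_263291_gt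

open Set Filter Topology Metric

variable {X : Type*} [MetricSpace X]

/-- one descent step of length at most `δ`. -/
def Step (M : Set X) (y : X) (c δ : ℝ) (z w : X) : Prop :=
  w ∈ M ∧ dist z w ≤ δ ∧ c * dist z w ≤ dist z y - dist w y

lemma step_chain_le {M : Set X} {y : X} {c δ : ℝ} (hc : 0 < c) {z w : X}
    (h : Relation.ReflTransGen (Step M y c δ) z w) :
    c * dist z w ≤ dist z y - dist w y := by
  induction h with
  | refl => simp
  | @tail b e _ hs ih =>
    obtain ⟨_, _, h3⟩ := hs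
    have := dist_triangle z b e
    nlinarith

lemma step_chain_mem {M : Set X} {y : X} {c δ : ℝ} {z w : X} (hz : z ∈ M)
    (h : Relation.ReflTransGen (Step M y c δ) z w) : w ∈ M := by
  induction h with
  | refl => exact hz
  | tail _ hs _ => exact hs.1

/-- The chain reaches the target. -/
lemma reach {M : Set X} [ProperSpace X] (hM : IsClosed M) {y : X} {c r : ℝ} (hc : 0 < c)
    (hstep : ∀ x ∈ M, dist x y ≤ r → x ≠ y → ∀ δ > 0, ∃ w ∈ M, w ≠ x ∧ dist x w ≤ δ ∧
      c * dist x w ≤ dist x y - dist w y)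
    {x : X} (hx : x ∈ M) (hxr : dist x y ≤ r) {δ : ℝ} (hδ : 0 < δ) :
    Relation.ReflTransGen (Step M y c δ) x y := by
  classical
  set R := Relation.ReflTransGen (Step M y c δ) with hR
  -- nearly optimal continuation
  have hbdd : ∀ z : X, BddBelow {s : ℝ | ∃ w, R z w ∧ s = dist w y} := by
    intro z
    refine ⟨0, ?_⟩
    rintro s ⟨w, _, rfl⟩
    exact dist_nonneg
  have hne : ∀ z : X, {s : ℝ | ∃ w, R z w ∧ s = dist w y}.Nonempty := by
    intro z
    exact ⟨dist z y, z, Relation.ReflTransGen.refl, rfl⟩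
  have hopt : ∀ (z : X) (ε : ℝ), ∃ w, 0 < ε → R z w ∧ ∀ v, R z v → dist w y ≤ dist v y + ε := by
    intro z ε
    by_cases hε : 0 < ε
    · obtain ⟨s, ⟨w, hw, rfl⟩, hs⟩ := exists_lt_of_csInf_lt (hne z)
        (lt_add_of_pos_right (sInf {s : ℝ | ∃ w, R z w ∧ s = dist w y}) hε)
      refine ⟨w, fun _ => ⟨hw, fun v hv => ?_⟩⟩
      have : sInf {s : ℝ | ∃ w, R z w ∧ s = dist w y} ≤ dist v y :=
        csInf_le (hbdd z) ⟨v, hv, rfl⟩
      linarith
    · exact ⟨z, fun h => absurd h hε⟩
  choose nxt hnxt using hopt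
  let zs : ℕ → X := fun n => Nat.rec x (fun k z => nxt z (1 / ((k : ℝ) + 1))) n
  have hz0 : zs 0 = x := rfl
  have hzs : ∀ k, zs (k + 1) = nxt (zs k) (1 / ((k : ℝ) + 1)) := fun k => rfl
  have hpos : ∀ k : ℕ, (0 : ℝ) < 1 / ((k : ℝ) + 1) := fun k => by positivity
  have hRs : ∀ k, R (zs k) (zs (k + 1)) := fun k => by
    rw [hzs]; exact (hnxt _ _ (hpos k)).1
  have hRle : ∀ j k, j ≤ k → R (zs j) (zs k) := by
    intro j k hjk
    induction k, hjk using Nat.le_induction with
    | base => exact Relation.ReflTransGen.refl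
    | succ k _ ih => exact ih.trans (hRs k)
  have hle : ∀ j k, j ≤ k → c * dist (zs j) (zs k) ≤ dist (zs j) y - dist (zs k) y :=
    fun j k hjk => step_chain_le hc (hRle j k hjk)
  have hanti : Antitone (fun k => dist (zs k) y) := by
    intro j k hjk
    have := hle j k hjk
    have h2 : 0 ≤ c * dist (zs j) (zs k) := by positivity
    simp only
    linarith
  obtain ⟨L, hL⟩ : ∃ L, Tendsto (fun k => dist (zs k) y) atTop (𝓝 L) :=
    ⟨_, tendsto_atTop_ciInf hanti ⟨0, by rintro _ ⟨k, rfl⟩; exact dist_nonneg⟩⟩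
  have hcauchy : CauchySeq zs := by
    rw [Metric.cauchySeq_iff']
    intro ε hε
    have h1 : CauchySeq (fun k => dist (zs k) y) := hL.cauchySeq
    rw [Metric.cauchySeq_iff'] at h1
    obtain ⟨N, hN⟩ := h1 (c * ε) (by positivity)
    refine ⟨N, fun n hn => ?_⟩
    have h2 := hN n hn
    have h3 := hle N n hn
    rw [Real.dist_eq] at h2
    have h4 : dist (zs N) y - dist (zs n) y < c * ε := by
      have := abs_lt.1 h2
      linarith [this.1]
    have h5 : c * dist (zs N) (zs n) < c * ε := lt_of_le_of_lt h3 h4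
    rw [dist_comm]
    exact lt_of_mul_lt_mul_left h5 hc.le
  obtain ⟨z, hz⟩ := cauchySeq_tendsto_of_complete hcauchy
  have hmem : ∀ k, zs k ∈ M := fun k => step_chain_mem hx (hRle 0 k (Nat.zero_le k))
  have hzM : z ∈ M := hM.mem_of_tendsto hz (Eventually.of_forall hmem)
  have hlim : ∀ j, c * dist (zs j) z ≤ dist (zs j) y - dist z y := by
    intro j
    have h1 : Tendsto (fun k => c * dist (zs j) (zs k)) atTop (𝓝 (c * dist (zs j) z)) :=
      (tendsto_const_nhds.dist hz).const_mul c
    have h2 : Tendsto (fun k => dist (zs j) y - dist (zs k) y) atTop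
        (𝓝 (dist (zs j) y - dist z y)) :=
      tendsto_const_nhds.sub (hz.dist tendsto_const_nhds)
    refine le_of_tendsto_of_tendsto h1 h2 ?_
    filter_upwards [eventually_ge_atTop j] with k hk using hle j k hk
  have hev : ∀ᶠ k in atTop, Step M y c δ (zs k) z := by
    have h1 : ∀ᶠ k in atTop, dist (zs k) z < δ := (Metric.tendsto_nhds.1 hz) δ hδ
    filter_upwards [h1] with k hk
    exact ⟨hzM, hk.le, hlim k⟩
  have hzr : dist z y ≤ r := by
    have := hlim 0
    have h2 : 0 ≤ c * dist (zs 0) z := by positivity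
    rw [hz0] at this h2
    linarith
  by_cases hzy : z = y
  · obtain ⟨k, hk⟩ := hev.exists
    have := (hRle 0 k (Nat.zero_le k)).tail hk
    rw [hzy] at this
    exact this
  · exfalso
    obtain ⟨w, hwM, hwz, hwd, hw⟩ := hstep z hzM hzr hzy δ hδ
    have hlt : dist w y < dist z y := by
      have : 0 < c * dist z w := mul_pos hc (dist_pos.2 (Ne.symm hwz))
      linarith
    have hev2 : ∀ᶠ k in atTop, dist (zs (k + 1)) y ≤ dist w y + 1 / ((k : ℝ) + 1) := by
      filter_upwards [hev] with k hk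
      rw [hzs]
      exact (hnxt _ _ (hpos k)).2 w
        ((Relation.ReflTransGen.single hk).tail ⟨hwM, hwd, hw⟩)
    have h1 : Tendsto (fun k => dist (zs (k + 1)) y) atTop (𝓝 (dist z y)) :=
      ((tendsto_add_atTop_iff_nat 1).2 hz).dist tendsto_const_nhds
    have h2 : Tendsto (fun k : ℕ => dist w y + 1 / ((k : ℝ) + 1)) atTop (𝓝 (dist w y + 0)) :=
      tendsto_const_nhds.add tendsto_one_div_add_atTop_nhds_zero_nat
    have := le_of_tendsto_of_tendsto h1 h2 hev2
    linarith

/-- a chain yields a totally ordered `δ`-dense family of points. -/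
lemma chain_set {M : Set X} {y : X} {c δ : ℝ} (hc : 0 < c) (hδ : 0 < δ) {x w : X} (hx : x ∈ M)
    (h : Relation.ReflTransGen (Step M y c δ) x w) :
    ∃ C : Set X, C ⊆ M ∧ x ∈ C ∧ w ∈ C ∧ (∀ z ∈ C, c * dist z w ≤ dist z y - dist w y) ∧
      (∀ z ∈ C, ∀ z' ∈ C, c * dist z z' ≤ |dist z y - dist z' y|) ∧
      (∀ s, dist w y ≤ s → s ≤ dist x y → ∃ z ∈ C, |dist z y - s| ≤ δ) := by
  induction h with
  | refl =>
    refine ⟨{x}, by simpa using hx, by simp, by simp, by simp, by simp, ?_⟩
    intro s h1 h2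
    refine ⟨x, by simp, ?_⟩
    have : s = dist x y := le_antisymm h2 h1
    rw [this]; simpa using hδ.le
  | @tail b e hh hs ih =>
    obtain ⟨C, hCM, hxC, hbC, h1, h2, h3⟩ := ih
    obtain ⟨heM, hbe, hbec⟩ := hs
    have key : ∀ z ∈ C, c * dist z e ≤ dist z y - dist e y := by
      intro z hz
      have := h1 z hz
      have t := dist_triangle z b e
      nlinarith
    refine ⟨insert e C, ?_, ?_, ?_, ?_, ?_, ?_⟩
    · intro z hz
      rcases hz with rfl | hz
      · exact heM
      · exact hCM hz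
    · exact mem_insert_of_mem _ hxC
    · exact mem_insert _ _
    · intro z hz
      rcases hz with rfl | hz
      · simp
      · exact key z hz
    · intro z hz z' hz'
      rcases hz with rfl | hz
      · rcases hz' with rfl | hz'
        · simp
        · have := key z' hz'
          rw [dist_comm, abs_sub_comm]
          exact this.trans (le_abs_self _)
      · rcases hz' with rfl | hz'
        · exact (key z hz).trans (le_abs_self _)
        · exact h2 z hz z' hz'
    · intro s hs1 hs2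
      by_cases hsb : dist b y ≤ s
      · obtain ⟨z, hz, hzs⟩ := h3 s hsb hs2
        exact ⟨z, mem_insert_of_mem _ hz, hzs⟩
      · refine ⟨e, mem_insert _ _, ?_⟩
        push Not at hsb
        have t := dist_triangle b e y
        rw [abs_le]
        constructor <;> linarith

/-- **Descent chains give curves.** -/
theorem exists_curve_of_descent [ProperSpace X] {M : Set X} (hM : IsClosed M) {y : X} {c r : ℝ}
    (hc : 0 < c)
    (hstep : ∀ x ∈ M, dist x y ≤ r → x ≠ y → ∀ δ > 0, ∃ w ∈ M, w ≠ x ∧ dist x w ≤ δ ∧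
      c * dist x w ≤ dist x y - dist w y)
    {x : X} (hx : x ∈ M) (hxr : dist x y ≤ r) :
    ∃ γ : ℝ → X, γ 0 = x ∧ γ (dist x y) = y ∧ (∀ s ∈ Icc 0 (dist x y), γ s ∈ M) ∧
      (∀ s ∈ Icc 0 (dist x y), dist (γ s) y = dist x y - s) ∧
      ∀ s ∈ Icc 0 (dist x y), ∀ t ∈ Icc 0 (dist x y), c * dist (γ s) (γ t) ≤ |s - t| := by
  classical
  set D := dist x y with hD
  have hD0 : 0 ≤ D := dist_nonneg
  have hpos : ∀ n : ℕ, (0 : ℝ) < 1 / ((n : ℝ) + 1) := fun n => by positivity
  have hle1 : ∀ n : ℕ, (1 : ℝ) / ((n : ℝ) + 1) ≤ 1 := fun n => by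
    rw [div_le_one (by positivity)]
    have : (0 : ℝ) ≤ n := Nat.cast_nonneg n
    linarith
  have hex : ∀ n : ℕ, ∃ C : Set X, C ⊆ M ∧ x ∈ C ∧
      (∀ z ∈ C, ∀ z' ∈ C, c * dist z z' ≤ |dist z y - dist z' y|) ∧
      (∀ s, 0 ≤ s → s ≤ D → ∃ z ∈ C, |dist z y - s| ≤ 1 / ((n : ℝ) + 1)) := by
    intro n
    obtain ⟨C, h1, h2, _, _, h5, h6⟩ :=
      chain_set hc (hpos n) hx (reach hM hc hstep hx hxr (hpos n))
    refine ⟨C, h1, h2, h5, ?_⟩
    intro s hs1 hs2
    exact h6 s (by simpa using hs1) hs2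
  choose C hCM hxC hCc hCd using hex
  have hz : ∀ (n : ℕ) (s : ℝ), ∃ z ∈ C n, s ∈ Icc 0 D → |dist z y - (D - s)| ≤ 1 / ((n : ℝ) + 1) := by
    intro n s
    by_cases hs : s ∈ Icc 0 D
    · obtain ⟨z, hz1, hz2⟩ := hCd n (D - s) (by linarith [hs.2]) (by linarith [hs.1])
      exact ⟨z, hz1, fun _ => hz2⟩
    · exact ⟨x, hxC n, fun h => absurd h hs⟩
  choose z hzC hzd using hz
  set U : Ultrafilter ℕ := hyperfilter ℕ with hU
  have hUle : (U : Filter ℕ) ≤ atTop := by
    rw [hU, ← Nat.cofinite_eq_atTop]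
    exact hyperfilter_le_cofinite
  have hcomp : IsCompact (M ∩ closedBall y (D + 1)) := by
    rw [inter_comm]
    exact (isCompact_closedBall y (D + 1)).inter_right hM
  have hlim : ∀ s : ℝ, ∃ a, s ∈ Icc 0 D → a ∈ M ∧ Tendsto (fun n => z n s) U (𝓝 a) := by
    intro s
    by_cases hs : s ∈ Icc 0 D
    · have h1 : ∀ n, z n s ∈ M ∩ closedBall y (D + 1) := by
        intro n
        refine ⟨hCM n (hzC n s), ?_⟩
        rw [mem_closedBall]
        have h2 := (abs_le.1 (hzd n s hs)).2
        have h3 := hle1 n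
        linarith [hs.1]
      have h2 : ((U.map (fun n => z n s) : Ultrafilter X) : Filter X) ≤
          𝓟 (M ∩ closedBall y (D + 1)) := by
        rw [le_principal_iff]
        exact Filter.mem_map.2 (Filter.univ_mem' h1)
      obtain ⟨a, ha, hal⟩ := hcomp.ultrafilter_le_nhds (U.map (fun n => z n s)) h2
      exact ⟨a, fun _ => ⟨ha.1, hal⟩⟩
    · exact ⟨x, fun h => absurd h hs⟩
  choose γ hγ using hlim
  have hnn : Tendsto (fun n : ℕ => (1 : ℝ) / ((n : ℝ) + 1)) U (𝓝 0) :=
    tendsto_one_div_add_atTop_nhds_zero_nat.mono_left hUle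
  have hdist : ∀ s ∈ Icc 0 D, dist (γ s) y = D - s := by
    intro s hs
    have h1 : Tendsto (fun n => dist (z n s) y) U (𝓝 (dist (γ s) y)) :=
      (hγ s hs).2.dist tendsto_const_nhds
    have h2 : Tendsto (fun n => dist (z n s) y) U (𝓝 (D - s)) := by
      have h3 : Tendsto (fun n => dist (z n s) y - (D - s)) U (𝓝 0) := by
        apply squeeze_zero_norm' _ hnn
        exact Eventually.of_forall fun n => by
          rw [Real.norm_eq_abs]; exact hzd n s hs
      have h4 := h3.add_const (D - s)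
      simpa using h4
    exact tendsto_nhds_unique h1 h2
  have hLip : ∀ s ∈ Icc 0 D, ∀ t ∈ Icc 0 D, c * dist (γ s) (γ t) ≤ |s - t| := by
    intro s hs t ht
    have h1 : Tendsto (fun n => c * dist (z n s) (z n t)) U (𝓝 (c * dist (γ s) (γ t))) :=
      ((hγ s hs).2.dist (hγ t ht).2).const_mul c
    have h2 : Tendsto (fun n => |dist (z n s) y - dist (z n t) y|) U
        (𝓝 |dist (γ s) y - dist (γ t) y|) :=
      (((hγ s hs).2.dist tendsto_const_nhds).sub ((hγ t ht).2.dist tendsto_const_nhds)).abs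
    have h3 := le_of_tendsto_of_tendsto h1 h2
      (Eventually.of_forall fun n => hCc n _ (hzC n s) _ (hzC n t))
    rw [hdist s hs, hdist t ht] at h3
    calc c * dist (γ s) (γ t) ≤ |D - s - (D - t)| := h3
      _ = |s - t| := by rw [abs_sub_comm s t]; congr 1; ring
  refine ⟨γ, ?_, ?_, fun s hs => (hγ s hs).1, hdist, hLip⟩
  · have h0 : (0 : ℝ) ∈ Icc 0 D := ⟨le_rfl, hD0⟩
    have h1 : Tendsto (fun n => c * dist (z n 0) x) U (𝓝 (c * dist (γ 0) x)) :=
      ((hγ 0 h0).2.dist tendsto_const_nhds).const_mul c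
    have h2 : Tendsto (fun n => |dist (z n 0) y - dist x y|) U
        (𝓝 |dist (γ 0) y - dist x y|) :=
      (((hγ 0 h0).2.dist tendsto_const_nhds).sub tendsto_const_nhds).abs
    have h3 := le_of_tendsto_of_tendsto h1 h2
      (Eventually.of_forall fun n => hCc n _ (hzC n 0) _ (hxC n))
    rw [hdist 0 h0, ← hD] at h3
    simp only [sub_zero, sub_self, abs_zero] at h3
    have h4 : dist (γ 0) x ≤ 0 := by
      by_contra hcon
      push Not at hcon
      have := mul_pos hc hcon
      linarith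
    exact dist_le_zero.1 h4
  · have h1 := hdist D ⟨hD0, le_rfl⟩
    rw [sub_self] at h1
    exact dist_eq_zero.1 h1

end Pool.Agent.Lib.MP_263291_gt
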