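import Mathlib

/-!
# Uniform first order expansion of convex functions

`second_diff_small`: for a finite convex function `h` on a finite-dimensional space and a point `y`,
`h (2x - y) - 2 h x + h y = o(|x - y|)`.
`dc_ray`: for a difference `f = g - h` of convex functions with `f y = 0`, every zero `x` of `f` near
`y` satisfies `f (x + τ (y - x)) ≤ η τ |x - y|` for all `τ ∈ [0,1]`.
-/

set_option autoImplicit false

namespace Pool.Agent.Lib.MP_263291_gt

open Set Filter Topology Metric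

variable {V : Type*} [NormedAddCommGroup V] [NormedSpace ℝ V] [FiniteDimensional ℝ V]

/-- slope of `h` at `y` in direction `m`. -/
noncomputable def slp (h : V → ℝ) (y : V) (s : ℝ) (m : V) : ℝ := (h (y + s • m) - h y) / s

lemma slp_mono {h : V → ℝ} (hh : ConvexOn ℝ univ h) (y m : V) {s t : ℝ} (hs : 0 < s)
    (hst : s ≤ t) : slp h y s m ≤ slp h y t m := by
  have ht : 0 < t := lt_of_lt_of_le hs hst
  unfold slp
  rw [div_le_div_iff₀ hs ht]
  have h1 : y + s • m = (1 - s / t) • y + (s / t) • (y + t • m) := by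
    rw [smul_add, smul_smul, sub_smul, one_smul, div_mul_cancel₀ s ht.ne']
    abel
  have h2 := hh.2 (mem_univ y) (mem_univ (y + t • m))
    (show 0 ≤ 1 - s / t by rw [sub_nonneg, div_le_one ht]; exact hst)
    (show 0 ≤ s / t by positivity) (by ring)
  rw [← h1] at h2
  simp only [smul_eq_mul] at h2
  have h3 : h (y + s • m) * t ≤ ((1 - s / t) * h y + s / t * h (y + t • m)) * t :=
    mul_le_mul_of_nonneg_right h2 ht.le
  have h4 : ((1 - s / t) * h y + s / t * h (y + t • m)) * t =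
      (t - s) * h y + s * h (y + t • m) := by
    field_simp
  nlinarith

/-- uniform second difference estimate for convex functions. -/
theorem second_diff_small {h : V → ℝ} (hh : ConvexOn ℝ univ h) (y : V) {η : ℝ} (hη : 0 < η) :
    ∃ σ > 0, ∀ x, ‖x - y‖ < σ → h (x + (x - y)) - 2 * h x + h y ≤ η * ‖x - y‖ := by
  classical
  obtain ⟨K, t, ht, hK⟩ := hh.locallyLipschitz y
  obtain ⟨ρ, hρ, hρt⟩ := Metric.mem_nhds_iff.1 ht
  have hLip : ∀ a ∈ ball y ρ, ∀ b ∈ ball y ρ, |h a - h b| ≤ K * ‖a - b‖ := by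
    intro a ha b hb
    have := hK.dist_le_mul a (hρt ha) b (hρt hb)
    rwa [Real.dist_eq, dist_eq_norm] at this
  by_contra hcon
  push Not at hcon
  -- bad sequence
  have hpos : ∀ n : ℕ, (0 : ℝ) < 1 / ((n : ℝ) + 1) := fun n => by positivity
  choose x hx1 hx2 using fun n : ℕ => hcon (1 / ((n : ℝ) + 1)) (hpos n)
  set s : ℕ → ℝ := fun n => ‖x n - y‖ with hs
  have hs0 : ∀ n, 0 < s n := by
    intro n
    rcases (norm_nonneg (x n - y)).lt_or_eq with h1 | h1
    · exact h1
    · exfalso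
      have h2 : x n - y = 0 := norm_eq_zero.1 h1.symm
      have h3 := hx2 n
      have h4 : x n = y := sub_eq_zero.1 h2
      rw [h2, h4, norm_zero, add_zero] at h3
      linarith
  set m : ℕ → V := fun n => (s n)⁻¹ • (x n - y) with hm
  have hm1 : ∀ n, ‖m n‖ = 1 := by
    intro n
    rw [hm]
    simp only
    rw [norm_smul, norm_inv, Real.norm_of_nonneg (hs0 n).le]
    exact inv_mul_cancel₀ (hs0 n).ne'
  have hxm : ∀ n, y + s n • m n = x n := by
    intro n
    rw [hm]
    simp only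
    rw [smul_smul, mul_inv_cancel₀ (hs0 n).ne', one_smul]
    abel
  have hxm2 : ∀ n, y + (2 * s n) • m n = x n + (x n - y) := by
    intro n
    rw [hm]
    simp only
    rw [smul_smul, mul_assoc, mul_inv_cancel₀ (hs0 n).ne', mul_one, two_smul]
    abel
  have hcomp : IsCompact (sphere (0 : V) 1) := isCompact_sphere _ _
  obtain ⟨a, ha, φ, hφ, hφa⟩ := hcomp.tendsto_subseq (x := m) (fun n => by
    rw [mem_sphere_zero_iff_norm]; exact hm1 n)
  have ha1 : ‖a‖ = 1 := by rwa [mem_sphere_zero_iff_norm] at ha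
  have hstend : Tendsto s atTop (𝓝 0) := by
    refine squeeze_zero (fun n => (hs0 n).le) (fun n => (hx1 n).le) ?_
    exact tendsto_one_div_add_atTop_nhds_zero_nat
  have hsφ : Tendsto (fun n => s (φ n)) atTop (𝓝 0) := hstend.comp hφ.tendsto_atTop
  -- lower bound of slopes in direction a
  set S : Set ℝ := {v | ∃ r, 0 < r ∧ r < ρ ∧ v = slp h y r a} with hS
  have hSne : S.Nonempty := ⟨slp h y (ρ / 2) a, ρ / 2, by positivity, by linarith, rfl⟩
  have hSbdd : BddBelow S := by
    refine ⟨-K, ?_⟩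
    rintro _ ⟨r, hr0, hr1, rfl⟩
    unfold slp
    rw [le_div_iff₀ hr0]
    have h1 := hLip (y + r • a) (by
      rw [mem_ball, dist_eq_norm, add_sub_cancel_left, norm_smul, ha1, mul_one,
        Real.norm_of_nonneg hr0.le]; exact hr1) y (mem_ball_self hρ)
    rw [add_sub_cancel_left, norm_smul, ha1, mul_one, Real.norm_of_nonneg hr0.le] at h1
    have := (abs_le.1 h1).1
    linarith
  obtain ⟨_, ⟨r, hr0, hr1, rfl⟩, hr⟩ := exists_lt_of_csInf_lt hSne
    (lt_add_of_pos_right (sInf S) (show 0 < η / 8 by positivity))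
  -- slopes vary Lipschitz in the direction
  have hdir : ∀ u v : V, ‖u‖ = 1 → ‖v‖ = 1 → ∀ q : ℝ, 0 < q → q < ρ →
      slp h y q u ≤ slp h y q v + K * ‖u - v‖ := by
    intro u v hu hv q hq0 hq1
    unfold slp
    have h1 := hLip (y + q • u) (by
      rw [mem_ball, dist_eq_norm, add_sub_cancel_left, norm_smul, hu, mul_one,
        Real.norm_of_nonneg hq0.le]; exact hq1) (y + q • v) (by
      rw [mem_ball, dist_eq_norm, add_sub_cancel_left, norm_smul, hv, mul_one,
        Real.norm_of_nonneg hq0.le]; exact hq1)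
    have h2 : y + q • u - (y + q • v) = q • (u - v) := by rw [smul_sub]; abel
    rw [h2, norm_smul, Real.norm_of_nonneg hq0.le] at h1
    have h3 := (abs_le.1 h1).2
    rw [div_le_iff₀ hq0, add_mul, div_mul_cancel₀ _ hq0.ne']
    nlinarith
  have hKpos : (0 : ℝ) ≤ K := K.coe_nonneg
  have hφ1 : ∀ᶠ n in atTop, ‖m (φ n) - a‖ * (8 * (K + 1)) < η := by
    have h1 : Tendsto (fun n => ‖m (φ n) - a‖ * (8 * ((K : ℝ) + 1))) atTop (𝓝 0) := by
      have h2 : Tendsto (fun n => ‖m (φ n) - a‖) atTop (𝓝 0) := by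
        rw [← tendsto_iff_norm_sub_tendsto_zero]; exact hφa
      simpa using h2.mul_const (8 * ((K : ℝ) + 1))
    exact h1.eventually (gt_mem_nhds hη)
  have hφ2 : ∀ᶠ n in atTop, s (φ n) < r / 2 := hsφ.eventually (gt_mem_nhds (by positivity))
  obtain ⟨n, hn1, hn2⟩ := (hφ1.and hφ2).exists
  set k := φ n with hk
  have e1 : slp h y (2 * s k) (m k) ≤ slp h y r (m k) :=
    slp_mono hh y (m k) (by linarith [hs0 k]) (by linarith)
  have e2 : slp h y r (m k) ≤ slp h y r a + K * ‖m k - a‖ := hdir _ _ (hm1 k) ha1 r hr0 hr1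
  have e3 : slp h y (s k) a ≤ slp h y (s k) (m k) + K * ‖a - m k‖ :=
    hdir _ _ ha1 (hm1 k) (s k) (hs0 k) (by linarith)
  have e4 : sInf S ≤ slp h y (s k) a :=
    csInf_le hSbdd ⟨s k, hs0 k, by linarith, rfl⟩
  rw [norm_sub_rev a (m k)] at e3
  have e5 : slp h y (2 * s k) (m k) - slp h y (s k) (m k) ≤ η / 8 + 2 * (K * ‖m k - a‖) := by
    linarith
  have e6 : K * ‖m k - a‖ ≤ η / 8 := by
    have := norm_nonneg (m k - a)
    nlinarith
  have e7 : slp h y (2 * s k) (m k) - slp h y (s k) (m k) ≤ η / 2 := by linarith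
  unfold slp at e7
  rw [hxm, hxm2] at e7
  have e8 := hx2 k
  have hsk := hs0 k
  have e9 : (h (x k + (x k - y)) - h y) / (2 * s k) - (h (x k) - h y) / s k =
      (h (x k + (x k - y)) - 2 * h (x k) + h y) / (2 * s k) := by
    field_simp
    ring
  rw [e9, div_le_iff₀ (by positivity)] at e7
  have e10 : η * s k < h (x k + (x k - y)) - 2 * h (x k) + h y := e8
  nlinarith

/-- along the segment from a zero `x` to the zero `y`. -/
theorem dc_ray {f g h : V → ℝ} (hg : ConvexOn ℝ univ g) (hh : ConvexOn ℝ univ h)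
    (hf : ∀ x, f x = g x - h x) {y : V} (hy : f y = 0) {η : ℝ} (hη : 0 < η) :
    ∃ σ > 0, ∀ x, ‖x - y‖ < σ → f x = 0 → ∀ τ ∈ Icc (0 : ℝ) 1,
      f (x + τ • (y - x)) ≤ η * (τ * ‖x - y‖) := by
  obtain ⟨σ, hσ, H⟩ := second_diff_small hh y hη
  refine ⟨σ, hσ, fun x hx hfx τ hτ => ?_⟩
  have h1 := H x hx
  have hg1 : g (x + τ • (y - x)) ≤ (1 - τ) * g x + τ * g y := by
    have := hg.2 (mem_univ x) (mem_univ y) (show 0 ≤ 1 - τ by linarith [hτ.2]) hτ.1
      (by ring)
    have e : (1 - τ) • x + τ • y = x + τ • (y - x) := by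
      rw [sub_smul, one_smul, smul_sub]; abel
    rwa [e] at this
  have hh1 : (1 + τ) * h x ≤ h (x + τ • (y - x)) + τ * h (x + (x - y)) := by
    have hp : (0 : ℝ) < 1 + τ := by linarith [hτ.1]
    have := hh.2 (mem_univ (x + τ • (y - x))) (mem_univ (x + (x - y)))
      (show 0 ≤ 1 / (1 + τ) by positivity) (show 0 ≤ τ / (1 + τ) from div_nonneg hτ.1 hp.le)
      (by field_simp)
    have e : (1 / (1 + τ)) • (x + τ • (y - x)) + (τ / (1 + τ)) • (x + (x - y)) = x := by
      have e1 : (τ / (1 + τ)) = (1 / (1 + τ)) * τ := by ring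
      rw [e1, ← smul_smul, ← smul_add]
      have e2 : x + τ • (y - x) + τ • (x + (x - y)) = (1 + τ) • x := by
        rw [smul_sub, smul_add, smul_sub, add_smul, one_smul]; abel
      rw [e2, smul_smul, one_div, inv_mul_cancel₀ hp.ne', one_smul]
    rw [e] at this
    simp only [smul_eq_mul] at this
    have h3 : (1 + τ) * h x ≤ (1 + τ) * (1 / (1 + τ) * h (x + τ • (y - x)) +
        τ / (1 + τ) * h (x + (x - y))) := mul_le_mul_of_nonneg_left this hp.le
    have h4 : (1 + τ) * (1 / (1 + τ) * h (x + τ • (y - x)) +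
        τ / (1 + τ) * h (x + (x - y))) = h (x + τ • (y - x)) + τ * h (x + (x - y)) := by
      field_simp
    linarith
  have hx0 : g x = h x := by have := hf x; linarith
  have hy0 : g y = h y := by have := hf y; linarith
  rw [hf]
  have h5 : τ * (h (x + (x - y)) - 2 * h x + h y) ≤ τ * (η * ‖x - y‖) :=
    mul_le_mul_of_nonneg_left h1 hτ.1
  rw [hx0, hy0] at hg1
  nlinarith

end Pool.Agent.Lib.MP_263291_gt
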