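import Mathlib

/-!
# Locally WDC sets (definitions)

The definitions of the problem file: DC functions, the Clarke subgradient, auras, WDC sets, locally
WDC sets and rectifiable curves.
-/

set_option autoImplicit false

namespace Pool.Agent.Lib.MP_263291_gt

open Set Filter Topology Metric

/-- Euclidean space `ℝ^d`. -/
abbrev E (d : ℕ) := EuclideanSpace ℝ (Fin d)

variable {d : ℕ}

/-- `f` is DC: a difference of two (finite) convex functions on `ℝ^d`. -/
def IsDC (f : E d → ℝ) : Prop :=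
  ∃ g h : E d → ℝ, ConvexOn ℝ univ g ∧ ConvexOn ℝ univ h ∧ ∀ x, f x = g x - h x

/-- The Clarke subgradient `∂f(x)`: the closed convex hull of all limits `lim f'(z i)` with
`z i → x` and `f'(z i)` existing. -/
def clarke (f : E d → ℝ) (x : E d) : Set (E d) :=
  closure (convexHull ℝ {u : E d | ∃ z : ℕ → E d, Tendsto z atTop (𝓝 x) ∧
    (∀ i, DifferentiableAt ℝ f (z i)) ∧ Tendsto (fun i => gradient f (z i)) atTop (𝓝 u)})

/-- `0` is a weakly regular value of `f`: there are no sequences `z i → x`, `u i → 0` with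
`f (z i) > 0 = f x` and `u i ∈ ∂f(z i)`. -/
def WeaklyRegularZero (f : E d → ℝ) : Prop :=
  ¬ ∃ (x : E d) (z u : ℕ → E d), Tendsto z atTop (𝓝 x) ∧ Tendsto u atTop (𝓝 0) ∧ f x = 0 ∧
    (∀ i, 0 < f (z i)) ∧ ∀ i, u i ∈ clarke f (z i)

/-- `f` is an aura for `A`: `f : ℝ^d → [0,∞)` is locally Lipschitz, `A = f⁻¹{0}` and `0` is a weakly
regular value of `f`. -/
def IsAura (f : E d → ℝ) (A : Set (E d)) : Prop :=
  LocallyLipschitz f ∧ (∀ x, 0 ≤ f x) ∧ A = {x | f x = 0} ∧ WeaklyRegularZero f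

/-- `A` is WDC: it admits a DC aura. -/
def IsWDC (A : Set (E d)) : Prop := ∃ f : E d → ℝ, IsDC f ∧ IsAura f A

/-- `M` is locally WDC: `M` is closed and near each of its points it agrees with a WDC set. -/
def IsLocallyWDC (M : Set (E d)) : Prop :=
  IsClosed M ∧ ∀ a ∈ M, ∃ r > 0, ∃ W : Set (E d), IsWDC W ∧ M ∩ ball a r = W ∩ ball a r

/-- `x` and `y` are joined in `M` by a rectifiable curve: there is a continuous map of `[0,1]` into
`M` of finite length from `x` to `y`. -/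
def RectJoined (M : Set (E d)) (x y : E d) : Prop :=
  ∃ γ : ℝ → E d, ContinuousOn γ (Icc 0 1) ∧ (∀ t ∈ Icc (0 : ℝ) 1, γ t ∈ M) ∧ γ 0 = x ∧ γ 1 = y ∧
    eVariationOn γ (Icc 0 1) < ⊤

end Pool.Agent.Lib.MP_263291_gt
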