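import Mathlib
import Pool.Agent.Lib.MP_263291_gt.Defs

/-!
# The error bound near a weakly regular zero

If `0` is a weakly regular value of the locally Lipschitz `f ≥ 0` and `f y = 0`, then
`dist (z, f⁻¹{0}) ≤ κ f z` for all `z` near `y`.
-/

set_option autoImplicit false

namespace Pool.Agent.Lib.MP_263291_gt

open Set Filter Topology Metric MeasureTheory
open scoped NNReal

variable {d : ℕ}

/-- gradients are bounded by the Lipschitz constant. -/
lemma norm_gradient_le {f : E d → ℝ} {K : ℝ≥0} {z : E d} {s : Set (E d)} (hs : s ∈ 𝓝 z)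
    (hK : LipschitzOnWith K f s) (_hd : DifferentiableAt ℝ f z) : ‖gradient f z‖ ≤ K := by
  have h1 : ‖fderiv ℝ f z‖ ≤ K := norm_fderiv_le_of_lipschitzOn ℝ hs hK
  have h2 : ‖gradient f z‖ = ‖fderiv ℝ f z‖ := by
    unfold gradient
    exact (InnerProductSpace.toDual ℝ (E d)).symm.norm_map _
  rw [h2]; exact h1

/-- near `z` every gradient is close to the Clarke subgradient: separation version. -/
lemma gradient_near {f : E d → ℝ} {K : ℝ≥0} {z : E d} {ρ : ℝ} (hρ : 0 < ρ)
    (hK : LipschitzOnWith K f (ball z ρ)) {v : E d} {a b : ℝ} (hab : b < a)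
    (hv : ∀ u ∈ clarke f z, a ≤ inner ℝ u v) :
    ∃ δ > 0, ∀ w ∈ ball z δ, DifferentiableAt ℝ f w → b ≤ inner ℝ (gradient f w) v := by
  by_contra hcon
  push Not at hcon
  have hpos : ∀ n : ℕ, (0 : ℝ) < min ρ (1 / ((n : ℝ) + 1)) := fun n =>
    lt_min hρ (by positivity)
  choose w hw1 hw2 hw3 using fun n : ℕ => hcon (min ρ (1 / ((n : ℝ) + 1))) (hpos n)
  have hwρ : ∀ n, w n ∈ ball z ρ := fun n => ball_subset_ball (min_le_left _ _) (hw1 n)
  have hwt : Tendsto w atTop (𝓝 z) := by
    rw [tendsto_iff_dist_tendsto_zero]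
    refine squeeze_zero (fun n => dist_nonneg) (fun n => ?_) tendsto_one_div_add_atTop_nhds_zero_nat
    exact ((mem_ball.1 (hw1 n)).le).trans (min_le_right _ _)
  have hbd : ∀ n, gradient f (w n) ∈ closedBall (0 : E d) K := by
    intro n
    rw [mem_closedBall_zero_iff]
    exact norm_gradient_le (isOpen_ball.mem_nhds (hwρ n)) hK (hw2 n)
  obtain ⟨u, _, φ, hφ, hφu⟩ := (isCompact_closedBall (0 : E d) K).tendsto_subseq hbd
  have hu : u ∈ clarke f z := by
    apply subset_closure
    apply subset_convexHull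
    exact ⟨fun n => w (φ n), hwt.comp hφ.tendsto_atTop, fun n => hw2 _, hφu⟩
  have h1 := hv u hu
  have h2 : Tendsto (fun n => inner ℝ (gradient f (w (φ n))) v) atTop (𝓝 (inner ℝ u v)) :=
    (hφu.inner tendsto_const_nhds)
  have h3 : inner ℝ u v ≤ b := le_of_tendsto h2 (Eventually.of_forall fun n => (hw3 _).le)
  linarith

/-- a.e. differentiability on a ball. -/
lemma ae_diff_ball {f : E d → ℝ} {K : ℝ≥0} {z : E d} {ρ : ℝ}
    (hK : LipschitzOnWith K f (ball z ρ)) :
    ∀ᵐ w : E d, w ∈ ball z ρ → DifferentiableAt ℝ f w := by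
  have h := hK.ae_differentiableWithinAt_of_mem (μ := volume)
  filter_upwards [h] with w hw hwb
  exact (hw hwb).differentiableAt (isOpen_ball.mem_nhds hwb)

/-- the Clarke subgradient is nonempty. -/
lemma clarke_nonempty {f : E d → ℝ} {K : ℝ≥0} {z : E d} {ρ : ℝ} (hρ : 0 < ρ)
    (hK : LipschitzOnWith K f (ball z ρ)) : (clarke f z).Nonempty := by
  have hdense : ∀ δ > 0, ∃ w ∈ ball z δ, DifferentiableAt ℝ f w := by
    intro δ hδ
    by_contra hcon
    push Not at hcon
    have h := ae_diff_ball hK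
    have h2 : volume (ball z (min δ ρ)) = 0 := by
      refine measure_mono_null ?_ (ae_iff.1 h)
      intro w hw
      simp only [mem_ofPred_eq, Classical.not_imp]
      exact ⟨ball_subset_ball (min_le_right _ _) hw,
        hcon w (ball_subset_ball (min_le_left _ _) hw)⟩
    exact (measure_ball_pos volume z (lt_min hδ hρ)).ne' h2
  have hpos : ∀ n : ℕ, (0 : ℝ) < min ρ (1 / ((n : ℝ) + 1)) := fun n =>
    lt_min hρ (by positivity)
  choose w hw1 hw2 using fun n : ℕ => hdense (min ρ (1 / ((n : ℝ) + 1))) (hpos n)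
  have hwρ : ∀ n, w n ∈ ball z ρ := fun n => ball_subset_ball (min_le_left _ _) (hw1 n)
  have hwt : Tendsto w atTop (𝓝 z) := by
    rw [tendsto_iff_dist_tendsto_zero]
    refine squeeze_zero (fun n => dist_nonneg) (fun n => ?_) tendsto_one_div_add_atTop_nhds_zero_nat
    exact ((mem_ball.1 (hw1 n)).le).trans (min_le_right _ _)
  have hbd : ∀ n, gradient f (w n) ∈ closedBall (0 : E d) K := by
    intro n
    rw [mem_closedBall_zero_iff]
    exact norm_gradient_le (isOpen_ball.mem_nhds (hwρ n)) hK (hw2 n)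
  obtain ⟨u, _, φ, hφ, hφu⟩ := (isCompact_closedBall (0 : E d) K).tendsto_subseq hbd
  exact ⟨u, subset_closure (subset_convexHull ℝ _
    ⟨fun n => w (φ n), hwt.comp hφ.tendsto_atTop, fun n => hw2 _, hφu⟩)⟩

lemma inner_gradient {f : E d → ℝ} (z v : E d) :
    inner ℝ (gradient f z) v = fderiv ℝ f z v := by
  unfold gradient
  exact InnerProductSpace.toDual_symm_apply

/-- the Fubini + fundamental theorem step. -/
lemma descent_of_gradient {f : E d → ℝ} {K : ℝ≥0} {z : E d} {δ : ℝ}
    (hK : LipschitzOnWith K f (ball z δ)) {v : E d} (hv : ‖v‖ ≤ 1) {b : ℝ}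
    (hb : ∀ w ∈ ball z δ, DifferentiableAt ℝ f w → b ≤ inner ℝ (gradient f w) v)
    {t : ℝ} (ht0 : 0 < t) (ht : t < δ) :
    f (z - t • v) ≤ f z - b * t := by
  -- a.e. line is good
  have hae := ae_diff_ball hK
  have hmp : Measure.QuasiMeasurePreserving (fun p : E d × ℝ => p.1 - p.2 • v)
      ((volume : Measure (E d)).prod (volume : Measure ℝ)) volume := by
    refine QuasiMeasurePreserving.prod_of_left (by fun_prop)
      (Eventually.of_forall fun s => ?_)
    exact (measurePreserving_sub_right volume (s • v)).quasiMeasurePreserving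
  have h1 : ∀ᵐ p : E d × ℝ ∂((volume : Measure (E d)).prod (volume : Measure ℝ)),
      p.1 - p.2 • v ∈ ball z δ → DifferentiableAt ℝ f (p.1 - p.2 • v) := hmp.ae hae
  have h2 : ∀ᵐ w : E d, ∀ᵐ s : ℝ, w - s • v ∈ ball z δ → DifferentiableAt ℝ f (w - s • v) :=
    Measure.ae_ae_of_ae_prod h1
  have hδ : 0 < δ := ht0.trans ht
  -- the estimate for good `w`
  have hgood : ∀ w ∈ ball z (δ - t),
      (∀ᵐ s : ℝ, w - s • v ∈ ball z δ → DifferentiableAt ℝ f (w - s • v)) →
      f (w - t • v) ≤ f w - b * t := by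
    intro w hw hws
    have hin : ∀ s ∈ Icc 0 t, w - s • v ∈ ball z δ := by
      intro s hs
      rw [mem_ball, dist_eq_norm] at hw ⊢
      have e1 : w - s • v - z = (w - z) - s • v := by abel
      rw [e1]
      have e2 : ‖s • v‖ ≤ t := by
        rw [norm_smul, Real.norm_of_nonneg hs.1]
        nlinarith [hs.1, hs.2, norm_nonneg v]
      calc ‖(w - z) - s • v‖ ≤ ‖w - z‖ + ‖s • v‖ := norm_sub_le _ _
        _ < δ := by linarith
    set φ : ℝ → ℝ := fun s => f (w - s • v) with hφ
    have hLip : LipschitzOnWith K φ (uIcc 0 t) := by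
      rw [uIcc_of_le ht0.le]
      refine LipschitzOnWith.of_dist_le_mul fun a ha c hc => ?_
      have e1 := hK.dist_le_mul _ (hin a ha) _ (hin c hc)
      refine e1.trans ?_
      have e2 : dist (w - a • v) (w - c • v) ≤ dist a c := by
        rw [dist_eq_norm, Real.dist_eq]
        have e3 : w - a • v - (w - c • v) = (c - a) • v := by rw [sub_smul]; abel
        rw [e3, norm_smul, Real.norm_eq_abs, abs_sub_comm]
        nlinarith [abs_nonneg (a - c), norm_nonneg v]
      exact mul_le_mul_of_nonneg_left e2 K.coe_nonneg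
    have hac : AbsolutelyContinuousOnInterval φ 0 t := hLip.absolutelyContinuousOnInterval
    have hint : IntervalIntegrable (deriv φ) volume 0 t := hac.intervalIntegrable_deriv
    have hftc : ∫ s in (0 : ℝ)..t, deriv φ s = φ t - φ 0 := hac.integral_deriv_eq_sub
    have hle : ∫ s in (0 : ℝ)..t, deriv φ s ≤ ∫ _s in (0 : ℝ)..t, (-b) := by
      refine intervalIntegral.integral_mono_ae_restrict ht0.le hint (by simp) ?_
      rw [EventuallyLE, ae_restrict_iff' measurableSet_Icc]
      filter_upwards [hws] with s hs hsI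
      have hd : DifferentiableAt ℝ f (w - s • v) := hs (hin s hsI)
      have h3 : HasDerivAt (fun s : ℝ => w - s • v) (-v) s := by
        have := ((hasDerivAt_id s).smul_const v).const_sub w
        simpa using this
      have h4 : HasDerivAt φ (fderiv ℝ f (w - s • v) (-v)) s :=
        hd.hasFDerivAt.comp_hasDerivAt s h3
      rw [h4.deriv, map_neg, ← inner_gradient]
      have := hb _ (hin s hsI) hd
      linarith
    rw [hftc, intervalIntegral.integral_const, smul_eq_mul, sub_zero] at hle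
    simp only [hφ, zero_smul, sub_zero] at hle
    linarith
  -- density and continuity
  by_contra hcon
  push Not at hcon
  have hcont : ContinuousOn f (ball z δ) := hK.continuousOn
  have hzt : z - t • v ∈ ball z δ := by
    rw [mem_ball, dist_eq_norm]
    have e1 : z - t • v - z = -(t • v) := by abel
    rw [e1, norm_neg, norm_smul, Real.norm_of_nonneg ht0.le]
    nlinarith [norm_nonneg v]
  have hc1 : ContinuousAt f z := hcont.continuousAt (isOpen_ball.mem_nhds (mem_ball_self hδ))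
  have hc2 : ContinuousAt (fun w => f (w - t • v)) z := by
    have : ContinuousAt f (z - t • v) := hcont.continuousAt (isOpen_ball.mem_nhds hzt)
    exact ContinuousAt.comp (g := f) (f := fun w => w - t • v) this (by fun_prop)
  have hev : ∀ᶠ w in 𝓝 z, f w - b * t < f (w - t • v) :=
    (hc1.sub continuousAt_const).eventually_lt hc2 hcon
  have hev2 : ∀ᶠ w in 𝓝 z, w ∈ ball z (δ - t) := ball_mem_nhds z (by linarith)
  obtain ⟨ε, hε, hεs⟩ := Metric.mem_nhds_iff.1 (hev.and hev2)
  have hnz : volume (ball z ε) ≠ 0 := (measure_ball_pos volume z hε).ne'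
  apply hnz
  refine measure_mono_null ?_ (ae_iff.1 h2)
  intro w hw
  have h5 := hεs hw
  intro hcontra
  have h6 := hgood w h5.2 hcontra
  have h7 := h5.1
  linarith

/-- separation of `0` from the Clarke subgradient. -/
lemma clarke_sep {f : E d → ℝ} {z : E d} (hne : (clarke f z).Nonempty) {ε : ℝ} (hε : 0 < ε)
    (h : ∀ u ∈ clarke f z, ε ≤ ‖u‖) :
    ∃ v : E d, ‖v‖ ≤ 1 ∧ ∀ u ∈ clarke f z, ε ≤ inner ℝ u v := by
  have hconv : Convex ℝ (clarke f z) := (convex_convexHull ℝ _).closure
  have hcomp : IsComplete (clarke f z) := isClosed_closure.isComplete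
  obtain ⟨v, hv, hv2⟩ := exists_norm_eq_iInf_of_complete_convex hne hcomp hconv 0
  rw [norm_eq_iInf_iff_real_inner_le_zero hconv hv] at hv2
  have hvn : ε ≤ ‖v‖ := h v hv
  have hv0 : 0 < ‖v‖ := hε.trans_le hvn
  refine ⟨(‖v‖)⁻¹ • v, ?_, ?_⟩
  · rw [norm_smul, norm_inv, norm_norm, inv_mul_cancel₀ hv0.ne']
  · intro u hu
    have h1 := hv2 u hu
    rw [zero_sub, inner_neg_left, inner_sub_right, real_inner_self_eq_norm_sq,
      real_inner_comm] at h1
    rw [inner_smul_right]
    have h2 : ‖v‖ ^ 2 ≤ inner ℝ u v := by linarith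
    calc ε ≤ ‖v‖ := hvn
      _ = (‖v‖)⁻¹ * ‖v‖ ^ 2 := by field_simp
      _ ≤ (‖v‖)⁻¹ * inner ℝ u v := mul_le_mul_of_nonneg_left h2 (by positivity)

/-- local decrease off the zero set. -/
lemma local_decrease {f : E d → ℝ} {K : ℝ≥0} {z : E d} {ρ : ℝ} (hρ : 0 < ρ)
    (hK : LipschitzOnWith K f (ball z ρ)) {ε b : ℝ} (hb : b < ε) (hε : 0 < ε)
    (h : ∀ u ∈ clarke f z, ε ≤ ‖u‖) :
    ∃ v : E d, ‖v‖ ≤ 1 ∧ ∃ δ > 0, ∀ t, 0 < t → t < δ → f (z - t • v) ≤ f z - b * t := by
  obtain ⟨v, hv, hv2⟩ := clarke_sep (clarke_nonempty hρ hK) hε h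
  obtain ⟨δ, hδ, hδ2⟩ := gradient_near hρ hK hb hv2
  refine ⟨v, hv, min ρ δ, lt_min hρ hδ, fun t ht0 ht => ?_⟩
  refine descent_of_gradient (δ := min ρ δ) (hK.mono (ball_subset_ball (min_le_left _ _))) hv
    (fun w hw hd => hδ2 w (ball_subset_ball (min_le_right _ _) hw) hd) ht0 ht

/-- the error bound, from a uniform lower bound of the Clarke subgradients off the zero set. -/
lemma error_bound_of_clarke {f : E d → ℝ} (hf0 : ∀ x, 0 ≤ f x) {K : ℝ≥0} {y : E d} {ρ : ℝ}
    (hK : LipschitzOnWith K f (ball y ρ)) {ε b : ℝ} (hb : b < ε) (hb0 : 0 < b)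
    (h : ∀ z ∈ ball y ρ, 0 < f z → ∀ u ∈ clarke f z, ε ≤ ‖u‖)
    {z : E d} (hz : dist z y + f z / b < ρ) :
    ∃ m, f m = 0 ∧ dist z m ≤ f z / b := by
  set R := f z / b with hR
  have hR0 : 0 ≤ R := div_nonneg (hf0 z) hb0.le
  have hsub : closedBall z R ⊆ ball y ρ := by
    intro w hw
    rw [mem_closedBall] at hw
    rw [mem_ball]
    have := dist_triangle w z y
    linarith
  have hcont : ContinuousOn (fun w => f w + b * dist w z) (closedBall z R) :=
    ((hK.continuousOn).mono hsub).add (by fun_prop)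
  obtain ⟨m, hm, hmmin⟩ := (isCompact_closedBall z R).exists_isMinOn
    ⟨z, mem_closedBall_self hR0⟩ hcont
  have h1 : f m + b * dist m z ≤ f z := by
    have := hmmin (mem_closedBall_self hR0)
    simpa using this
  have hdm : dist m z ≤ R := by
    rw [hR, le_div_iff₀ hb0]
    have := hf0 m
    linarith
  by_cases hfm : f m = 0
  · exact ⟨m, hfm, by rw [dist_comm]; exact hdm⟩
  · exfalso
    have hfm0 : 0 < f m := lt_of_le_of_ne (hf0 m) (Ne.symm hfm)
    have hmR : dist m z < R := by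
      rw [hR, lt_div_iff₀ hb0]
      linarith
    have hmy : m ∈ ball y ρ := hsub hm
    obtain ⟨r, hr, hrs⟩ := Metric.isOpen_iff.1 isOpen_ball m hmy
    set b' := (b + ε) / 2 with hb'
    obtain ⟨v, hv, δ, hδ, hdec⟩ := local_decrease hr (hK.mono hrs) (b := b') (by linarith)
      (by linarith) (h m hmy hfm0)
    set t := min (δ / 2) (R - dist m z) with ht
    have ht0 : 0 < t := lt_min (by positivity) (by linarith)
    have htδ : t < δ := lt_of_le_of_lt (min_le_left _ _) (by linarith)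
    have h2 := hdec t ht0 htδ
    have h3 : dist (m - t • v) z ≤ dist m z + t := by
      have e1 : dist (m - t • v) m ≤ t := by
        rw [dist_eq_norm]
        have e2 : m - t • v - m = -(t • v) := by abel
        rw [e2, norm_neg, norm_smul, Real.norm_of_nonneg ht0.le]
        nlinarith [norm_nonneg v]
      have := dist_triangle (m - t • v) m z
      linarith
    have h4 : m - t • v ∈ closedBall z R := by
      rw [mem_closedBall]
      have := min_le_right (δ / 2) (R - dist m z)
      linarith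
    have h5 := hmmin h4
    simp only [mem_ofPred_eq] at h5
    have h6 : b * dist (m - t • v) z ≤ b * (dist m z + t) := mul_le_mul_of_nonneg_left h3 hb0.le
    nlinarith

/-- **Error bound** near a point `y` of the zero set, for a weakly regular zero. -/
theorem error_bound {f : E d → ℝ} (hLip : LocallyLipschitz f) (hf0 : ∀ x, 0 ≤ f x)
    (hreg : WeaklyRegularZero f) {y : E d} (hy : f y = 0) :
    ∃ κ > 0, ∃ ρ > 0, ∀ z, dist z y < ρ → ∃ m, f m = 0 ∧ dist z m ≤ κ * f z := by
  obtain ⟨K, s, hs, hK⟩ := hLip y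
  obtain ⟨ρ₀, hρ₀, hρs⟩ := Metric.mem_nhds_iff.1 hs
  -- uniform lower bound
  have hlow : ∃ ε > 0, ∃ ρ > 0, ∀ z ∈ ball y ρ, 0 < f z → ∀ u ∈ clarke f z, ε ≤ ‖u‖ := by
    by_contra hcon
    push Not at hcon
    have hpos : ∀ n : ℕ, (0 : ℝ) < 1 / ((n : ℝ) + 1) := fun n => by positivity
    choose z hz1 hz2 u hu1 hu2 using fun n : ℕ => hcon (1 / ((n : ℝ) + 1)) (hpos n)
      (1 / ((n : ℝ) + 1)) (hpos n)
    refine hreg ⟨y, z, u, ?_, ?_, hy, hz2, hu1⟩
    · rw [tendsto_iff_dist_tendsto_zero]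
      exact squeeze_zero (fun n => dist_nonneg) (fun n => (mem_ball.1 (hz1 n)).le)
        tendsto_one_div_add_atTop_nhds_zero_nat
    · exact squeeze_zero_norm (fun n => (hu2 n).le) tendsto_one_div_add_atTop_nhds_zero_nat
  obtain ⟨ε, hε, ρ₁, hρ₁, hlow⟩ := hlow
  set ρ := min ρ₀ ρ₁ with hρ
  have hρ0 : 0 < ρ := lt_min hρ₀ hρ₁
  have hKρ : LipschitzOnWith K f (ball y ρ) :=
    hK.mono ((ball_subset_ball (min_le_left _ _)).trans hρs)
  have hlow' : ∀ z ∈ ball y ρ, 0 < f z → ∀ u ∈ clarke f z, ε ≤ ‖u‖ := fun z hz =>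
    hlow z (ball_subset_ball (min_le_right _ _) hz)
  set b := ε / 2 with hb
  have hb0 : 0 < b := by positivity
  have hcont : Tendsto (fun z => dist z y + f z / b) (𝓝 y) (𝓝 (dist y y + f y / b)) := by
    have h1 : ContinuousAt f y := hLip.continuous.continuousAt
    exact ((continuous_id.dist continuous_const).continuousAt).add (h1.div_const b)
  rw [hy, dist_self, zero_div, add_zero] at hcont
  obtain ⟨ρ₂, hρ₂, hsub⟩ := Metric.mem_nhds_iff.1 (hcont.eventually (gt_mem_nhds hρ0))
  refine ⟨1 / b, by positivity, ρ₂, hρ₂, fun z hz => ?_⟩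
  obtain ⟨m, hm, hm2⟩ := error_bound_of_clarke hf0 hKρ (b := b) (ε := ε) (by linarith) hb0
    hlow' (z := z) (hsub (mem_ball.2 hz))
  exact ⟨m, hm, by rw [one_div, inv_mul_eq_div]; exact hm2⟩

end Pool.Agent.Lib.MP_263291_gt
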