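import Mathlib
import Pool.Agent.Lib.MP_263291_gt.Defs
import Pool.Agent.Lib.MP_263291_gt.Chain
import Pool.Agent.Lib.MP_263291_gt.Convex
import Pool.Agent.Lib.MP_263291_gt.ErrorBound

/-!
# Rectifiable connectedness of locally WDC sets
-/

set_option autoImplicit false

namespace Pool.Agent.Lib.MP_263291_gt

open Set Filter Topology Metric
open scoped NNReal ENNReal

variable {d : ℕ}

/-- **Local descent.** For every `y` in a locally WDC set `M` and every `c < 1`, from every other
point `x` of `M` near `y` there are arbitrarily small steps inside `M` along which the distance to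
`y` decreases at rate `c`. -/
theorem local_descent {M : Set (E d)} (hM : IsLocallyWDC M) {y : E d} (hy : y ∈ M) {c : ℝ}
    (hc : c < 1) :
    ∃ r > 0, ∀ x ∈ M, dist x y ≤ r → x ≠ y → ∀ δ > 0, ∃ w ∈ M, w ≠ x ∧ dist x w ≤ δ ∧
      c * dist x w ≤ dist x y - dist w y := by
  obtain ⟨hMc, hloc⟩ := hM
  obtain ⟨r₀, hr₀, W, ⟨f, ⟨g, h, hg, hh, hfgh⟩, hLip, hf0, hW, hreg⟩, hMW⟩ := hloc y hy
  have hyW : y ∈ W := by
    have : y ∈ M ∩ ball y r₀ := ⟨hy, mem_ball_self hr₀⟩
    rw [hMW] at this; exact this.1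
  have hfy : f y = 0 := by rw [hW] at hyW; exact hyW
  obtain ⟨κ, hκ, ρ, hρ, heb⟩ := error_bound hLip hf0 hreg hfy
  -- the smallness `θ` of the defect
  set θ : ℝ := (1 - c) / 4 ⊓ (1 / 4) with hθ
  have hθ0 : 0 < θ := lt_inf_iff.2 ⟨by linarith, by norm_num⟩
  have hθ1 : θ ≤ (1 - c) / 4 := inf_le_left
  have hθ2 : θ ≤ 1 / 4 := inf_le_right
  obtain ⟨σ, hσ, hray⟩ := dc_ray hg hh hfgh hfy (η := θ / κ) (by positivity)
  refine ⟨min (r₀ / 2) (min (ρ / 2) (σ / 2)), by positivity, ?_⟩
  intro x hx hxr hxy δ hδ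
  have hxr0 : dist x y ≤ r₀ / 2 := hxr.trans (min_le_left _ _)
  have hxρ : dist x y ≤ ρ / 2 := hxr.trans ((min_le_right _ _).trans (min_le_left _ _))
  have hxσ : dist x y ≤ σ / 2 := hxr.trans ((min_le_right _ _).trans (min_le_right _ _))
  set s := dist x y with hs
  have hs0 : 0 < s := dist_pos.2 hxy
  have hxW : x ∈ W := by
    have : x ∈ M ∩ ball y r₀ := ⟨hx, by rw [mem_ball]; linarith⟩
    rw [hMW] at this; exact this.1
  have hfx : f x = 0 := by rw [hW] at hxW; exact hxW
  have hsn : ‖x - y‖ = s := by rw [hs, dist_eq_norm]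
  have hsn' : ‖y - x‖ = s := by rw [norm_sub_rev]; exact hsn
  set τ : ℝ := min 1 (δ / (2 * s)) with hτ
  have hτ0 : 0 < τ := lt_min one_pos (by positivity)
  have hτ1 : τ ≤ 1 := min_le_left _ _
  have hτδ : τ * s ≤ δ / 2 := by
    have h1 : τ ≤ δ / (2 * s) := min_le_right _ _
    calc τ * s ≤ δ / (2 * s) * s := mul_le_mul_of_nonneg_right h1 hs0.le
      _ = δ / 2 := by field_simp
  set z := x + τ • (y - x) with hz
  have hfz : f z ≤ θ / κ * (τ * s) := by
    have := hray x (by rw [hsn]; linarith) hfx τ ⟨hτ0.le, hτ1⟩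
    rwa [hsn] at this
  have hzx : dist x z = τ * s := by
    rw [dist_eq_norm, hz]
    have e : x - (x + τ • (y - x)) = -(τ • (y - x)) := by abel
    rw [e, norm_neg, norm_smul, Real.norm_of_nonneg hτ0.le, hsn']
  have hzy : dist z y = (1 - τ) * s := by
    rw [dist_eq_norm, hz]
    have e : x + τ • (y - x) - y = (1 - τ) • (x - y) := by
      rw [sub_smul, one_smul, smul_sub, smul_sub]; abel
    rw [e, norm_smul, Real.norm_of_nonneg (by linarith), hsn]
  have hτs : 0 < τ * s := mul_pos hτ0 hs0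
  obtain ⟨m, hm, hzm⟩ := heb z (by rw [hzy]; nlinarith)
  have hzm' : dist z m ≤ θ * (τ * s) := by
    refine hzm.trans ?_
    have h1 : κ * f z ≤ κ * (θ / κ * (τ * s)) := mul_le_mul_of_nonneg_left hfz hκ.le
    have h2 : κ * (θ / κ * (τ * s)) = θ * (τ * s) := by field_simp
    linarith
  have hxm : dist x m ≤ (1 + θ) * (τ * s) := by
    have := dist_triangle x z m
    linarith
  have hmy : dist m y ≤ s - (1 - θ) * (τ * s) := by
    have h1 := dist_triangle m z y
    rw [dist_comm m z, hzy] at h1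
    linarith
  have hmM : m ∈ M := by
    have h1 : m ∈ W ∩ ball y r₀ := by
      refine ⟨by rw [hW]; exact hm, ?_⟩
      rw [mem_ball]
      nlinarith
    rw [← hMW] at h1
    exact h1.1
  refine ⟨m, hmM, ?_, ?_, ?_⟩
  · rintro rfl
    have h1 : dist m z ≤ θ * (τ * s) := by rw [dist_comm]; exact hzm'
    rw [hzx] at h1
    nlinarith
  · nlinarith
  · -- c * dist x m ≤ s - dist m y
    by_cases hc0 : c ≤ 0
    · have h1 : c * dist x m ≤ 0 := mul_nonpos_of_nonpos_of_nonneg hc0 dist_nonneg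
      nlinarith
    · push Not at hc0
      have h1 : c * dist x m ≤ c * ((1 + θ) * (τ * s)) := mul_le_mul_of_nonneg_left hxm hc0.le
      have h2 : c * (1 + θ) ≤ 1 - θ := by nlinarith
      have h3 : c * ((1 + θ) * (τ * s)) ≤ (1 - θ) * (τ * s) := by
        rw [← mul_assoc]
        exact mul_le_mul_of_nonneg_right h2 hτs.le
      linarith

/-- the auxiliary relation: joined by a Lipschitz curve on some interval `[0,T]`. -/
def LipJoined (M : Set (E d)) (x y : E d) : Prop :=
  ∃ (T : ℝ) (K : ℝ≥0) (γ : ℝ → E d), 0 ≤ T ∧ LipschitzOnWith K γ (Icc 0 T) ∧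
    (∀ t ∈ Icc 0 T, γ t ∈ M) ∧ γ 0 = x ∧ γ T = y

lemma LipJoined.symm {M : Set (E d)} {x y : E d} (h : LipJoined M x y) : LipJoined M y x := by
  obtain ⟨T, K, γ, hT, hL, hM, h0, h1⟩ := h
  refine ⟨T, K, fun t => γ (T - t), hT, ?_, ?_, by simpa using h1, by simpa using h0⟩
  · refine LipschitzOnWith.of_dist_le_mul fun a ha b hb => ?_
    have e := hL.dist_le_mul (T - a) ⟨by linarith [ha.2], by linarith [ha.1]⟩ (T - b)
      ⟨by linarith [hb.2], by linarith [hb.1]⟩
    rwa [dist_sub_left] at e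
  · intro t ht
    exact hM _ ⟨by linarith [ht.2], by linarith [ht.1]⟩

lemma LipJoined.trans {M : Set (E d)} {x y z : E d} (h : LipJoined M x y)
    (h' : LipJoined M y z) : LipJoined M x z := by
  obtain ⟨T, K, γ, hT, hL, hM, h0, h1⟩ := h
  obtain ⟨T', K', γ', hT', hL', hM', h0', h1'⟩ := h'
  have hcross : ∀ a ∈ Icc (0 : ℝ) T, ∀ b, T < b → b ≤ T + T' →
      dist (γ a) (γ' (b - T)) ≤ max (K : ℝ) K' * dist a b := by
    intro a ha b hb1 hb2
    have e1 := hL.dist_le_mul a ha T ⟨hT, le_rfl⟩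
    have e2 := hL'.dist_le_mul 0 ⟨le_rfl, hT'⟩ (b - T) ⟨by linarith, by linarith⟩
    rw [h1] at e1
    rw [h0'] at e2
    have e3 := dist_triangle (γ a) y (γ' (b - T))
    have e4 : dist a T = T - a := by rw [Real.dist_eq, abs_sub_comm, abs_of_nonneg]; linarith [ha.2]
    have e5 : dist 0 (b - T) = b - T := by
      rw [Real.dist_eq, zero_sub, abs_neg, abs_of_nonneg]; linarith
    have e6 : dist a b = b - a := by
      rw [Real.dist_eq, abs_sub_comm, abs_of_nonneg]; linarith [ha.2]
    rw [e4] at e1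
    rw [e5] at e2
    rw [e6]
    have m1 : (K : ℝ) * (T - a) ≤ max (K : ℝ) K' * (T - a) :=
      mul_le_mul_of_nonneg_right (le_max_left _ _) (by linarith [ha.2])
    have m2 : (K' : ℝ) * (b - T) ≤ max (K : ℝ) K' * (b - T) :=
      mul_le_mul_of_nonneg_right (le_max_right _ _) (by linarith)
    nlinarith
  refine ⟨T + T', max K K', fun t => if t ≤ T then γ t else γ' (t - T), by linarith, ?_, ?_, ?_, ?_⟩
  · refine LipschitzOnWith.of_dist_le_mul fun a ha b hb => ?_
    rw [NNReal.coe_max]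
    by_cases haT : a ≤ T
    · by_cases hbT : b ≤ T
      · simp only [haT, hbT, if_true]
        refine (hL.dist_le_mul a ⟨ha.1, haT⟩ b ⟨hb.1, hbT⟩).trans ?_
        exact mul_le_mul_of_nonneg_right (le_max_left _ _) dist_nonneg
      · simp only [haT, hbT, if_true, if_false]
        push Not at hbT
        exact hcross a ⟨ha.1, haT⟩ b hbT hb.2
    · by_cases hbT : b ≤ T
      · simp only [haT, hbT, if_true, if_false]
        push Not at haT
        rw [dist_comm, dist_comm a b]
        exact hcross b ⟨hb.1, hbT⟩ a haT ha.2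
      · simp only [haT, hbT, if_false]
        push Not at haT hbT
        refine (hL'.dist_le_mul (a - T) ⟨by linarith, by linarith [ha.2]⟩ (b - T)
          ⟨by linarith, by linarith [hb.2]⟩).trans ?_
        rw [dist_sub_right]
        exact mul_le_mul_of_nonneg_right (le_max_right _ _) dist_nonneg
  · intro t ht
    by_cases htT : t ≤ T
    · simp only [htT, if_true]; exact hM t ⟨ht.1, htT⟩
    · simp only [htT, if_false]
      push Not at htT
      exact hM' (t - T) ⟨by linarith, by linarith [ht.2]⟩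
  · simp only [hT, if_true]; exact h0
  · by_cases hT0 : T + T' ≤ T
    · have : T' = 0 := by linarith
      subst this
      simp only [add_zero, le_refl, if_true]
      rw [h1, ← h0', h1']
    · simp only [hT0, if_false, add_sub_cancel_left]; exact h1'

lemma LipJoined.rectJoined {M : Set (E d)} {x y : E d} (h : LipJoined M x y) :
    RectJoined M x y := by
  obtain ⟨T, K, γ, hT, hL, hM, h0, h1⟩ := h
  have hmaps : ∀ t ∈ Icc (0 : ℝ) 1, T * t ∈ Icc 0 T := fun t ht =>
    ⟨mul_nonneg hT ht.1, by nlinarith [ht.1, ht.2]⟩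
  have hLip : LipschitzOnWith (K * T.toNNReal) (fun t => γ (T * t)) (Icc 0 1) := by
    refine LipschitzOnWith.of_dist_le_mul fun a ha b hb => ?_
    have e := hL.dist_le_mul _ (hmaps a ha) _ (hmaps b hb)
    have e2 : dist (T * a) (T * b) = T * dist a b := by
      rw [Real.dist_eq, Real.dist_eq, ← mul_sub, abs_mul, abs_of_nonneg hT]
    rw [e2, ← mul_assoc] at e
    rw [NNReal.coe_mul, Real.coe_toNNReal T hT]
    exact e
  refine ⟨fun t => γ (T * t), hLip.continuousOn, fun t ht => hM _ (hmaps t ht), by simpa using h0,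
    by simpa using h1, ?_⟩
  have h01 : (0 : ℝ) ∈ Icc (0 : ℝ) 1 := ⟨le_rfl, zero_le_one⟩
  have h11 : (1 : ℝ) ∈ Icc (0 : ℝ) 1 := ⟨zero_le_one, le_rfl⟩
  have hbv := hLip.locallyBoundedVariationOn 0 1 h01 h11
  rw [inter_self] at hbv
  exact lt_top_iff_ne_top.2 hbv

/-- **Theorem.** Every two points of a connected locally WDC set are joined in it by a rectifiable
curve. -/
theorem rectJoined_of_isLocallyWDC {M : Set (E d)} (hM : IsLocallyWDC M) (hconn : IsPreconnected M)
    {x y : E d} (hx : x ∈ M) (hy : y ∈ M) : RectJoined M x y := by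
  apply LipJoined.rectJoined
  refine hconn.induction₂ (fun a b => LipJoined M a b) ?_
    (fun a b c _ _ _ h1 h2 => h1.trans h2) (fun a b _ _ h => h.symm) hx hy
  intro a ha
  obtain ⟨r, hr, hdesc⟩ := local_descent hM ha (c := 1 / 2) (by norm_num)
  have hev : ∀ᶠ b in 𝓝[M] a, dist b a < r :=
    mem_nhdsWithin_of_mem_nhds (ball_mem_nhds a hr)
  filter_upwards [hev, self_mem_nhdsWithin] with b hb hbM
  obtain ⟨γ, h0, h1, h2, _, h4⟩ :=
    exists_curve_of_descent hM.1 (by norm_num : (0 : ℝ) < 1 / 2) hdesc hbM hb.le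
  apply LipJoined.symm
  refine ⟨dist b a, 2, γ, dist_nonneg, ?_, h2, h0, h1⟩
  refine LipschitzOnWith.of_dist_le_mul fun s hs t ht => ?_
  have := h4 s hs t ht
  rw [Real.dist_eq]
  push_cast
  linarith

end Pool.Agent.Lib.MP_263291_gt
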